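import Pool.Agent.H93.SP.Defs

/-!
# Targets of the symmetric product block (MP_2059f1_ag)
-/

open Topology Set
open scoped unitInterval ContinuousMap TensorProduct
open Pool.Agent.H59 Pool.Agent.H64.LB

namespace Pool.Agent.H93.SPB

/-! ## Homology toolkit -/

/-- homotopy invariance -/
def T_HI : Prop := ∀ (X Y : Type) [TopologicalSpace X] [TopologicalSpace Y] (f g : C(X, Y)),
  f.Homotopic g → ∀ q, HH.map ℚ q f = HH.map ℚ q g

/-- the Mayer-Vietoris sequence of two open subsets, natural and antisymmetric -/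
def T_MV : Prop :=
  ∃ D : ∀ (X : Type) [TopologicalSpace X] (U V : Set X) (q : ℕ),
      HH ℚ (q + 1) ↥(U ∪ V) →ₗ[ℚ] HH ℚ q ↥(U ∩ V),
    (∀ (X : Type) [TopologicalSpace X] (U V : Set X), IsOpen U → IsOpen V →
      (∀ (q : ℕ) (x : HH ℚ (q + 1) ↥(U ∪ V)), D X U V q x = 0 ↔
        ∃ (y : HH ℚ (q + 1) U) (z : HH ℚ (q + 1) V),
          x = HH.map ℚ (q + 1) (inc (subset_union_left : U ⊆ U ∪ V)) y +
            HH.map ℚ (q + 1) (inc (subset_union_right : V ⊆ U ∪ V)) z) ∧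
      (∀ (q : ℕ) (x : HH ℚ q ↥(U ∩ V)), (∃ w, D X U V q w = x) ↔
        HH.map ℚ q (inc (inter_subset_left : U ∩ V ⊆ U)) x = 0 ∧
        HH.map ℚ q (inc (inter_subset_right : U ∩ V ⊆ V)) x = 0) ∧
      (∀ (q : ℕ) (y : HH ℚ q U) (z : HH ℚ q V),
        HH.map ℚ q (inc (subset_union_left : U ⊆ U ∪ V)) y +
          HH.map ℚ q (inc (subset_union_right : V ⊆ U ∪ V)) z = 0 ↔
        ∃ x : HH ℚ q ↥(U ∩ V), y = HH.map ℚ q (inc (inter_subset_left : U ∩ V ⊆ U)) x ∧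
          z = - HH.map ℚ q (inc (inter_subset_right : U ∩ V ⊆ V)) x) ∧
      (∀ x : HH ℚ 0 ↥(U ∪ V), ∃ (y : HH ℚ 0 U) (z : HH ℚ 0 V),
          x = HH.map ℚ 0 (inc (subset_union_left : U ⊆ U ∪ V)) y +
            HH.map ℚ 0 (inc (subset_union_right : V ⊆ U ∪ V)) z)) ∧
    (∀ (X X' : Type) [TopologicalSpace X] [TopologicalSpace X'] (U V : Set X) (U' V' : Set X')
      (f : C(X, X')) (hU : MapsTo f U U') (hV : MapsTo f V V') (q : ℕ)
      (x : HH ℚ (q + 1) ↥(U ∪ V)), IsOpen U → IsOpen V → IsOpen U' → IsOpen V' →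
      D X' U' V' q (HH.map ℚ (q + 1) (rst f (hU.union_union hV)) x) =
        HH.map ℚ q (rst f (hU.inter_inter hV)) (D X U V q x)) ∧
    (∀ (X X' : Type) [TopologicalSpace X] [TopologicalSpace X'] (U V : Set X) (U' V' : Set X')
      (f : C(X, X')) (hU : MapsTo f U V') (hV : MapsTo f V U') (h : MapsTo f (U ∪ V) (U' ∪ V'))
      (h' : MapsTo f (U ∩ V) (U' ∩ V')) (q : ℕ)
      (x : HH ℚ (q + 1) ↥(U ∪ V)), IsOpen U → IsOpen V → IsOpen U' → IsOpen V' →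
      D X' U' V' q (HH.map ℚ (q + 1) (rst f h) x) =
        - HH.map ℚ q (rst f h') (D X U V q x))

/-- the map `Z × A → Z × A'` induced by `A → A'` -/
def zm (Z : Type) [TopologicalSpace Z] {A A' : Type} [TopologicalSpace A] [TopologicalSpace A']
    (f : C(A, A')) : C(Z × A, Z × A') := (ContinuousMap.id Z).prodMap f

/-- the inclusion of a subset -/
def vl {W : Type} [TopologicalSpace W] (A : Set W) : C(A, W) := ⟨Subtype.val, continuous_subtype_val⟩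

/-- Mayer-Vietoris for `Z × (A ∪ B)`, with the sign for maps exchanging `A` and `B` -/
def T_MVP : Prop := ∀ (Z W : Type) [TopologicalSpace Z] [TopologicalSpace W] (A B : Set W),
  IsOpen A → IsOpen B → A ∪ B = univ →
  ∃ D : ∀ q : ℕ, HH ℚ (q + 1) (Z × W) →ₗ[ℚ] HH ℚ q (Z × ↥(A ∩ B)),
    (∀ q x, D q x = 0 → ∃ (y : HH ℚ (q + 1) (Z × A)) (z : HH ℚ (q + 1) (Z × B)),
      x = HH.map ℚ (q + 1) (zm Z (vl A)) y + HH.map ℚ (q + 1) (zm Z (vl B)) z) ∧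
    (∀ q x, HH.map ℚ q (zm Z (inc (inter_subset_left : A ∩ B ⊆ A))) x = 0 →
      HH.map ℚ q (zm Z (inc (inter_subset_right : A ∩ B ⊆ B))) x = 0 → ∃ w, D q w = x) ∧
    (∀ q w, HH.map ℚ q (zm Z (inc (inter_subset_left : A ∩ B ⊆ A))) (D q w) = 0 ∧
      HH.map ℚ q (zm Z (inc (inter_subset_right : A ∩ B ⊆ B))) (D q w) = 0) ∧
    (∀ x : HH ℚ 0 (Z × W), ∃ (y : HH ℚ 0 (Z × A)) (z : HH ℚ 0 (Z × B)),
      x = HH.map ℚ 0 (zm Z (vl A)) y + HH.map ℚ 0 (zm Z (vl B)) z) ∧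
    (∀ (f : C(W, W)) (_ : MapsTo f A B) (_ : MapsTo f B A) (h : MapsTo f (A ∩ B) (A ∩ B)) (q : ℕ)
      (x : HH ℚ (q + 1) (Z × W)),
      D q (HH.map ℚ (q + 1) (zm Z f) x) = - HH.map ℚ q (zm Z (rst f h)) (D q x))

/-- compact supports: directed unions of open sets -/
def T_CS : Prop := ∀ (X : Type) [TopologicalSpace X] (F : Set (Set X)), F.Nonempty →
  (∀ A ∈ F, IsOpen A) → (∀ A ∈ F, ∀ B ∈ F, ∃ C ∈ F, A ⊆ C ∧ B ⊆ C) → ∀ q : ℕ,
  (∀ x : HH ℚ q ↥(⋃₀ F), ∃ (A : Set X) (hA : A ∈ F) (y : HH ℚ q A),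
    x = HH.map ℚ q (inc (subset_sUnion_of_mem hA)) y) ∧
  (∀ (A : Set X) (hA : A ∈ F) (y : HH ℚ q A), HH.map ℚ q (inc (subset_sUnion_of_mem hA)) y = 0 →
    ∃ B ∈ F, ∃ h : A ⊆ B, HH.map ℚ q (inc h) y = 0)

/-- `H_0`: generation by points, points joined by a path, locally constant functions, naturality -/
def T_H0 : Prop :=
  (∀ (Y : Type) [TopologicalSpace Y], Submodule.span ℚ (range (ptc : Y → HH ℚ 0 Y)) = ⊤) ∧
  (∀ (Y : Type) [TopologicalSpace Y] (y y' : Y), Joined y y' → ptc y = ptc y') ∧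
  (∀ (Y : Type) [TopologicalSpace Y] (φ : Y → ℚ), IsLocallyConstant φ →
    ∃ L : HH ℚ 0 Y →ₗ[ℚ] ℚ, ∀ y, L (ptc y) = φ y) ∧
  (∀ (Y Y' : Type) [TopologicalSpace Y] [TopologicalSpace Y'] (f : C(Y, Y')) (y : Y),
    HH.map ℚ 0 f (ptc y) = ptc (f y))

/-- a space whose identity is homotopic to a locally constant map has no homology in positive
degrees -/
def T_LC0 : Prop := ∀ (Y : Type) [TopologicalSpace Y] (r : C(Y, Y)), IsLocallyConstant r →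
  (ContinuousMap.id Y).Homotopic r → ∀ q, Subsingleton (HH ℚ (q + 1) Y)

/-! ## Transfer -/

/-- Mayer-Vietoris step -/
def T_TRMV : Prop := ∀ (V Q : Type) [TopologicalSpace V] [TopologicalSpace Q] (a : GA V Q)
  (O₁ O₂ : Set Q), IsOpen O₁ → IsOpen O₂ → a.TR O₁ → a.TR O₂ → a.TR (O₁ ∩ O₂) → a.TR (O₁ ∪ O₂)

/-- local-to-global -/
def T_TRU : Prop := ∀ (V Q : Type) [TopologicalSpace V] [TopologicalSpace Q] (a : GA V Q)
  (B : Set (Set Q)), (∀ O ∈ B, IsOpen O ∧ a.TR O) → (∀ O ∈ B, ∀ O' ∈ B, O ∩ O' ∈ B) →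
  ∀ C ⊆ B, a.TR (⋃₀ C)

/-- basic open sets have the transfer property -/
def T_TRB1 : Prop := ∀ (V Q : Type) [NormedAddCommGroup V] [NormedSpace ℝ V] [TopologicalSpace Q]
  (a : GA V Q), a.Lin → ∀ O : Set Q, Basic a O → a.TR O

/-- basic open sets are stable under intersection -/
def T_TRB2 : Prop := ∀ (V Q : Type) [NormedAddCommGroup V] [NormedSpace ℝ V] [TopologicalSpace Q]
  (a : GA V Q) (O O' : Set Q), Basic a O → Basic a O' → Basic a (O ∩ O')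

/-- every open set is a union of basic open sets -/
def T_TRB3 : Prop := ∀ (V Q : Type) [NormedAddCommGroup V] [NormedSpace ℝ V] [TopologicalSpace Q]
  (a : GA V Q), a.Lin → ∀ O : Set Q, IsOpen O → ∃ C ⊆ {P | Basic a P}, ⋃₀ C = O

/-- the transfer property holds for all open sets -/
def T_TRL : Prop := ∀ (V Q : Type) [NormedAddCommGroup V] [NormedSpace ℝ V] [TopologicalSpace Q]
  (a : GA V Q), a.Lin → ∀ O : Set Q, IsOpen O → a.TR O

/-- the transfer property of symmetric products of open subsets of normed spaces -/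
def T_TRSP : Prop := ∀ (E : Type) [NormedAddCommGroup E] [NormedSpace ℝ E] (U : Set E),
  IsOpen U → ∀ N, TRN U N

/-- the transfer property of symmetric products of the models -/
def T_TRO : Prop := ∀ n N : ℕ, TRN (OO n) N

/-- symmetric products preserve homotopy equivalences -/
def T_SPH : Prop := ∀ (Y Y' : Type) [TopologicalSpace Y] [TopologicalSpace Y'] (f : C(Y, Y'))
  (g : C(Y', Y)), (g.comp f).Homotopic (ContinuousMap.id Y) → ∀ N,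
  ((spMap N g).comp (spMap N f)).Homotopic (ContinuousMap.id (SP N Y))

/-- the transfer property is homotopy invariant -/
def T_TRH : Prop := ∀ (Y Y' : Type) [TopologicalSpace Y] [TopologicalSpace Y'],
  Nonempty (Y ≃ₕ Y') → ∀ N, TRN Y N → TRN Y' N

/-! ## Homology of the models -/

/-- the sectors -/
def T_OM : Prop :=
  (∀ t : ℂ, (¬ ∃ s : ℝ, s ≤ 0 ∧ t ^ 3 = (s : ℂ)) ↔ ∃ j, t ∈ Om j) ∧
  (∀ j, IsOpen (Om j)) ∧ (∀ j, Convex ℝ (Om j)) ∧
  (∀ j, ∀ t ∈ Om j, ∀ r : ℝ, 0 < r → (r : ℂ) * t ∈ Om j) ∧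
  (1 : ℂ) ∈ Om 0 ∧ Complex.I ∈ Om 1 ∧ -Complex.I ∈ Om 2 ∧
  (∀ t ∈ Om 0, t.im < √3 * t.re) ∧ (∀ t ∈ Om 1, √3 * t.re < t.im) ∧
  (∀ t ∈ Om 0, 0 < √3 * t.re + t.im) ∧ (∀ t ∈ Om 2, √3 * t.re + t.im < 0)

/-- finiteness and vanishing for products with a punctured space -/
def T_AF : Prop := ∀ (Z : Type) [TopologicalSpace Z],
  ((∀ q, Module.Finite ℚ (HH ℚ q Z)) → ∀ n q, Module.Finite ℚ (HH ℚ q (Z × AA n))) ∧
  (∀ d, (∀ q ≥ d, Subsingleton (HH ℚ q Z)) → ∀ n, ∀ q ≥ d + n, Subsingleton (HH ℚ q (Z × AA n)))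

/-- the homology of a punctured vector space vanishes below the top degree -/
def T_AV : Prop := ∀ (E : Type) [NormedAddCommGroup E] [NormedSpace ℝ E] [FiniteDimensional ℝ E]
  (q : ℕ), 1 ≤ q → q + 1 < Module.finrank ℝ E → Subsingleton (HH ℚ q {v : E // v ≠ 0})

/-- swap lemma: on `Z × (ℝ⁴∖0) × (ℝ⁴∖0)` the exchange of the factors acts by `-1` modulo classes
coming from the axes -/
def T_SW : Prop := ∀ (Z : Type) [TopologicalSpace Z] (q : ℕ) (a : AA 3)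
  (x : HH ℚ q (Z × (AA 3 × AA 3))), ∃ y y' : HH ℚ q (Z × AA 3),
    x + HH.map ℚ q ⟨fun w : Z × (AA 3 × AA 3) => (w.1, (w.2.2, w.2.1)), by fun_prop⟩ x =
      HH.map ℚ q ⟨fun w : Z × AA 3 => (w.1, (w.2, a)), by fun_prop⟩ y +
      HH.map ℚ q ⟨fun w : Z × AA 3 => (w.1, (a, w.2)), by fun_prop⟩ y'

/-- `H_3` of `(ℝ⁴∖0)²` comes from the axes -/
def T_AX : Prop := ∀ (a : AA 3) (x : HH ℚ 3 (AA 3 × AA 3)), ∃ y y' : HH ℚ 3 (AA 3),
    x = HH.map ℚ 3 ⟨fun w : AA 3 => (w, a), by fun_prop⟩ y +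
      HH.map ℚ 3 ⟨fun w : AA 3 => (a, w), by fun_prop⟩ y'

/-- two spheres generate the homology of the model, also after multiplication by a space -/
def T_KP : Prop := ∀ n, 1 ≤ n → ∃ v : Fin 2 → C(AA n, OO n),
  ∀ (Z : Type) [TopologicalSpace Z] (q : ℕ) (x : HH ℚ q (Z × OO n)),
    ∃ y : Fin 2 → HH ℚ q (Z × AA n),
      x = ∑ i, HH.map ℚ q (zm Z (v i)) (y i)

/-- generation of the homology of powers -/
def T_SPAN : Prop := ∀ (Y B : Type) [TopologicalSpace Y] [TopologicalSpace B] (m : ℕ)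
  (v : Fin m → C(B, Y)),
  (∀ (Z : Type) [TopologicalSpace Z] (q : ℕ) (x : HH ℚ q (Z × Y)),
    ∃ y : Fin m → HH ℚ q (Z × B),
      x = ∑ i, HH.map ℚ q (zm Z (v i)) (y i)) →
  ∀ (N q : ℕ) (x : HH ℚ q (Fin N → Y)), ∃ y : (Fin N → Fin m) → HH ℚ q (Fin N → B),
    x = ∑ c, HH.map ℚ q ⟨fun (w : Fin N → B) i => v (c i) (w i), by fun_prop⟩ (y c)

/-! ## Symmetric products -/

/-- INPUT: the model is path connected -/
def T_PC : Prop := PathConnectedSpace (OO 3)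

/-- adding a point, up to homotopy, does not depend on the point -/
def T_ADD : Prop := ∀ (Y : Type) [TopologicalSpace Y] (y0 y1 : Y), Joined y0 y1 → ∀ N,
  (spInc y0 N).Homotopic (spInc y1 N)

/-- adding a point is injective on homology -/
def T_INJ : Prop := ∀ (Y : Type) [TopologicalSpace Y] (y0 : Y), (∀ N, TRN Y N) →
  ∀ N q, Function.Injective (HH.map ℚ q (spInc y0 N))

/-- for the model, adding a point is surjective on homology for `N ≥ 2` -/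
def T_SUR : Prop := ∀ (y0 : OO 3) (N q : ℕ), 2 ≤ N →
  Function.Surjective (HH.map ℚ q (spInc y0 N))

/-- for the model: `SP 1 → SP 2` is surjective on `H_3` -/
def T_SUR3 : Prop := ∀ (y0 : OO 3), Function.Surjective (HH.map ℚ 3 (spInc y0 1))

/-- for the model: finiteness for `SP 2` -/
def T_FIN : Prop := (∀ q, Module.Finite ℚ (HH ℚ q (SP 2 (OO 3)))) ∧
  ∀ q, 7 ≤ q → Subsingleton (HH ℚ q (SP 2 (OO 3)))

/-- transport to a space homotopy equivalent to the model -/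
def T_TP : Prop := ∀ (Y : Type) [TopologicalSpace Y], Nonempty (Y ≃ₕ OO 3) → ∀ y0 : Y,
  (∀ N, TRN Y N) ∧
  (∀ K q, Function.Bijective (HH.map ℚ q (spIncK y0 2 K))) ∧
  (∀ q, Module.Finite ℚ (HH ℚ q (SP 2 Y))) ∧
  (∀ q, 7 ≤ q → Subsingleton (HH ℚ q (SP 2 Y))) ∧
  Function.Bijective (HH.map ℚ 3 (SP.inc y0))

/-! ## Homotopy groups -/

/-- the map of homotopy groups is a homomorphism -/
def T_PF : Prop := ∀ (X X' : Type) [TopologicalSpace X] [TopologicalSpace X'] (f : C(X, X'))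
  (x : X) (x' : X'), f x = x' → ∀ k : ℕ,
  ∃ F : HomotopyGroup.Pi (k + 1) X x →* HomotopyGroup.Pi (k + 1) X' x',
    ∀ (p : GenLoop (Fin (k + 1)) X x) (p' : GenLoop (Fin (k + 1)) X' x'),
      (∀ y, p' y = f (p y)) → F (hcl p) = hcl p'

/-- homeomorphism of the simplex with the cube, carrying boundary to boundary -/
def T_QH : Prop := ∀ k : ℕ, ∃ h : Dl (k + 1) ≃ₜ (Fin k → I),
  ∀ t, (∃ i, t i = 0) ↔ h t ∈ Cube.boundary (Fin k)

/-- Moore normalisation for groups of functions on simplices -/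
def T_MN : Prop := ∀ (G : Type) [AddCommGroup G] (S : ∀ n : ℕ, AddSubgroup (Dl n → G)),
  (∀ (n : ℕ) (i : Fin (n + 1)) (u : Dl (n + 1) → G), u ∈ S (n + 1) → u ∘ cf i ∈ S n) →
  (∀ (n : ℕ) (i : Fin n) (u : Dl n → G), u ∈ S n → u ∘ sg i ∈ S (n + 1)) →
  ∀ (k : ℕ) (x : Dl (k + 1) → G) (w : Dl (k + 2) → G), x ∈ S (k + 1) → w ∈ S (k + 2) →
  (∀ i : Fin (k + 1), x ∘ cf i = 0) →
  x = ∑ i : Fin (k + 2), (-1 : ℤ) ^ (i : ℕ) • (w ∘ cf i) →
  ∃ y ∈ S (k + 2), (∀ i : Fin (k + 1), y ∘ cf i.castSucc = 0) ∧ y ∘ cf (Fin.last (k + 1)) = x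

/-- two simplices with the same faces except the last: the last faces are homotopic relative to
the boundary -/
def T_D2 : Prop := ∀ (M : Type) [TopologicalSpace M] (k : ℕ) (a b : C(Dl (k + 2), M)),
  (∀ i : Fin (k + 1), a.comp (cf i.castSucc) = b.comp (cf i.castSucc)) →
  (a.comp (cf (Fin.last (k + 1)))).HomotopicRel (b.comp (cf (Fin.last (k + 1))))
    {t | ∃ i, t i = 0}

/-- collar lemma (homotopy extension for the boundary of the cube) -/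
def T_CL : Prop := ∀ (X : Type) [TopologicalSpace X] (k : ℕ) (f g : C(Fin k → I, X))
  (K : C(I × (Fin k → I), X)) (L : C(I × (I × (Fin k → I)), X)),
  (∀ y, K (0, y) = f y) → (∀ y, K (1, y) = g y) →
  (∀ s, ∀ y ∈ Cube.boundary (Fin k), L (0, (s, y)) = K (s, y)) →
  (∀ s, ∀ y ∈ Cube.boundary (Fin k), L (1, (s, y)) = f y) →
  (∀ r, ∀ y ∈ Cube.boundary (Fin k), L (r, (0, y)) = f y ∧ L (r, (1, y)) = f y) →
  f.HomotopicRel g (Cube.boundary (Fin k))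

/-- injectivity of `jj`, continuity of sums -/
def T_JC : Prop := ∀ (Y : Type) [TopologicalSpace Y] (y0 : Y),
  (∀ N, Function.Injective (jj y0 N)) ∧
  (∀ N (z : SP N Y), jj y0 (N + 1) (spInc y0 N z) = jj y0 N z) ∧
  (∀ N, jj y0 N (spPt y0 N) = 0) ∧
  (∀ (T : Type) [TopologicalSpace T] (N N' : ℕ) (u : T → (Y →₀ ℤ)), N ≤ N' → IsC y0 N u →
    IsC y0 N' u) ∧
  (∀ (T : Type) [TopologicalSpace T] (N N' : ℕ) (u u' : T → (Y →₀ ℤ)), IsC y0 N u →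
    IsC y0 N' u' → IsC y0 (N + N') (u + u')) ∧
  (∀ (T : Type) [TopologicalSpace T], IsC y0 0 (0 : T → (Y →₀ ℤ)))

/-- cancellation of a summand in a homotopy relative to the boundary -/
def T_D3 : Prop := ∀ (Y : Type) [TopologicalSpace Y] [PathConnectedSpace Y] (y0 : Y) (k N : ℕ)
  (b P R : (Fin k → I) → (Y →₀ ℤ)) (Φ : I × (Fin k → I) → (Y →₀ ℤ)),
  IsC y0 N b → IsC y0 N P → IsC y0 N R → IsC y0 N Φ →
  (∀ y, Φ (0, y) = b y + P y) → (∀ y, Φ (1, y) = b y + R y) →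
  (∀ y ∈ Cube.boundary (Fin k), P y = 0 ∧ R y = 0 ∧ ∀ s, Φ (s, y) = b y) →
  ∃ (N' : ℕ) (Ψ : I × (Fin k → I) → (Y →₀ ℤ)), IsC y0 N' Ψ ∧
    (∀ y, Ψ (0, y) = P y) ∧ (∀ y, Ψ (1, y) = R y) ∧
    (∀ y ∈ Cube.boundary (Fin k), ∀ s, Ψ (s, y) = 0)

/-- the pointwise sum represents the product in the homotopy group -/
def T_EH : Prop := ∀ (Y : Type) [TopologicalSpace Y] (y0 : Y) (k a b N : ℕ), a + b ≤ N →
  ∀ (u v : (Fin (k + 2) → I) → (Y →₀ ℤ)), IsC y0 a u → IsC y0 b v →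
  (∀ y ∈ Cube.boundary (Fin (k + 2)), u y = 0 ∧ v y = 0) →
  ∀ p p₁ p₂ : GenLoop (Fin (k + 2)) (SP N Y) (spPt y0 N),
  (∀ y, jj y0 N (p y) = u y + v y) → (∀ y, jj y0 N (p₁ y) = u y) →
  (∀ y, jj y0 N (p₂ y) = v y) →
  hcl p = hcl p₁ * hcl p₂

/-- the spherical cycle of a loop, for a homeomorphism `h` of the simplex with the cube -/
noncomputable def sphc {X : Type} [TopologicalSpace X] {x : X} {k : ℕ}
    (h : Dl (k + 1) ≃ₜ (Fin k → I)) (p : GenLoop (Fin k) X x) : Ch ℚ (k + 1) X :=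
  Finsupp.single (p.1.comp (h : C(Dl (k + 1), Fin k → I))) 1 -
    Finsupp.single (ContinuousMap.const _ x) 1

/-- spherical cycles are cycles -/
def T_SC : Prop := ∀ (X : Type) [TopologicalSpace X] (x : X) (k : ℕ)
  (h : Dl (k + 3) ≃ₜ (Fin (k + 2) → I)), (∀ t, (∃ i, t i = 0) ↔ h t ∈ Cube.boundary (Fin (k + 2))) →
  ∀ p : GenLoop (Fin (k + 2)) X x, bd ℚ (k + 2) X (sphc h p) = 0

/-- a homological relation between spherical classes of `SP 2 Y` gives a relation between their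
images in the homotopy group of some `SP N Y` -/
def T_HUR1 : Prop := ∀ (Y : Type) [TopologicalSpace Y] [PathConnectedSpace Y] (y0 : Y) (k : ℕ)
  (h : Dl (k + 3) ≃ₜ (Fin (k + 2) → I)), (∀ t, (∃ i, t i = 0) ↔ h t ∈ Cube.boundary (Fin (k + 2))) →
  ∀ (r : ℕ) (p : Fin r → GenLoop (Fin (k + 2)) (SP 2 Y) (spPt y0 2)) (m : Fin r → ℤ)
  (w : Ch ℚ (k + 4) (SP 2 Y)), bd ℚ (k + 3) (SP 2 Y) w = ∑ j, (m j : ℚ) • sphc h (p j) →
  ∃ (M K : ℕ) (p' : Fin r → GenLoop (Fin (k + 2)) (SP (2 + K) Y) (spPt y0 (2 + K))), 1 ≤ M ∧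
    (∀ j y, p' j y = spIncK y0 2 K (p j y)) ∧
    ∏ j, hcl (p' j) ^ ((M : ℤ) * m j) = 1

/-- rank estimate (linear algebra) -/
def T_HUR3 : Prop := ∀ (G : Type) [CommGroup G] (V : Type) [AddCommGroup V] [Module ℚ V]
  [Module.Finite ℚ V] (η : G → V),
  (∀ (r : ℕ) (α : Fin r → G) (m : Fin r → ℤ), ∑ j, (m j : ℚ) • η (α j) = 0 →
    ∃ M : ℕ, 1 ≤ M ∧ ∏ j, α j ^ ((M : ℤ) * m j) = 1) →
  Module.Finite ℚ (ℚ ⊗[ℤ] Additive G) ∧
    Module.finrank ℚ (ℚ ⊗[ℤ] Additive G) ≤ Module.finrank ℚ V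

/-- change of the base point -/
def T_BC : Prop := ∀ (X : Type) [TopologicalSpace X] [PathConnectedSpace X] (x y : X) (k : ℕ),
  Nonempty (HomotopyGroup.Pi (k + 1) X x ≃* HomotopyGroup.Pi (k + 1) X y)

/-- INPUT of block 1: rational Whitehead theorem, kernel part -/
def T_RW : Prop := ∀ (A B : Type) [TopologicalSpace A] [TopologicalSpace B]
  [SimplyConnectedSpace A] [SimplyConnectedSpace B] (f : C(A, B)),
  (∀ q, Function.Bijective (HH.map ℚ q f)) → ∀ (k : ℕ) (a : A) (b : B), f a = b →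
  ∀ (p : GenLoop (Fin (k + 1)) A a) (p' : GenLoop (Fin (k + 1)) B b),
  (∀ y, p' y = f (p y)) → hcl p' = 1 →
  ∃ m : ℕ, 1 ≤ m ∧ hcl p ^ m = 1

/-- the result of this block -/
def T_RE : Prop := ∀ (Y : Type) [TopologicalSpace Y] [PathConnectedSpace Y],
  Nonempty (Y ≃ₕ OO 3) → (∀ N, 2 ≤ N → SimplyConnectedSpace (SP N Y)) →
  (∀ k, Module.Finite ℚ (HH ℚ k (SP 2 Y))) ∧ (∀ k, 7 ≤ k → Subsingleton (HH ℚ k (SP 2 Y))) ∧
  (∀ y0 : Y, Function.Bijective (HH.map ℚ 3 (SP.inc y0))) ∧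
  (∀ y : SP 2 Y,
    (∀ k : ℕ, Module.Finite ℚ (ℚ ⊗[ℤ] Additive (HomotopyGroup.Pi (k + 2) (SP 2 Y) y))) ∧
    ∀ k ≥ 5, Subsingleton (ℚ ⊗[ℤ] Additive (HomotopyGroup.Pi (k + 2) (SP 2 Y) y)))

end Pool.Agent.H93.SPB
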