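import Pool.Agent.H93.SP.Asm

/-!
# Assembly of the symmetric product block: the estimate of the homotopy groups
-/

open Topology Set
open scoped unitInterval ContinuousMap TensorProduct
open Pool.Agent.H59 Pool.Agent.H64.LB

namespace Pool.Agent.H93.SPB

/-- the image of a loop -/
def gmap {X X' : Type} [TopologicalSpace X] [TopologicalSpace X'] (f : C(X, X')) {x : X} {x' : X'}
    (hx : f x = x') {k : ℕ} (p : GenLoop (Fin k) X x) : GenLoop (Fin k) X' x' :=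
  ⟨f.comp p.1, fun y hy => by
    change f (p.1 y) = x'
    rw [p.2 y hy, hx]⟩

theorem gmap_apply {X X' : Type} [TopologicalSpace X] [TopologicalSpace X'] (f : C(X, X')) {x : X}
    {x' : X'} (hx : f x = x') {k : ℕ} (p : GenLoop (Fin k) X x) (y : Fin k → I) :
    gmap f hx p y = f (p y) := rfl

/-- the estimate at the base point -/
theorem key (hTP : T_TP) (hH1 : T_HUR1) (hH3 : T_HUR3) (hPF : T_PF) (hQH : T_QH) (hSC : T_SC)
    (hRW : T_RW) (Y : Type) [TopologicalSpace Y] [PathConnectedSpace Y] (e : Nonempty (Y ≃ₕ OO 3))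
    (hs : ∀ N, 2 ≤ N → SimplyConnectedSpace (SP N Y)) (y0 : Y) (k : ℕ) :
    Module.Finite ℚ (ℚ ⊗[ℤ] Additive (HomotopyGroup.Pi (k + 2) (SP 2 Y) (spPt y0 2))) ∧
      Module.finrank ℚ (ℚ ⊗[ℤ] Additive (HomotopyGroup.Pi (k + 2) (SP 2 Y) (spPt y0 2))) ≤
        Module.finrank ℚ (HH ℚ (k + 2) (SP 2 Y)) := by
  obtain ⟨_, hbij, hfin, _, _⟩ := hTP Y e y0
  obtain ⟨h, hh⟩ := hQH (k + 2)
  have := hfin (k + 2)
  let rep : HomotopyGroup.Pi (k + 2) (SP 2 Y) (spPt y0 2) →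
    GenLoop (Fin (k + 2)) (SP 2 Y) (spPt y0 2) := fun α => Quotient.out α
  have hrep : ∀ α, hcl (rep α) = α := fun α => Quotient.out_eq α
  let zc : HomotopyGroup.Pi (k + 2) (SP 2 Y) (spPt y0 2) → ZZ ℚ (k + 2) (SP 2 Y) := fun α =>
    ⟨sphc h (rep α), hSC _ _ k h hh (rep α)⟩
  let η : HomotopyGroup.Pi (k + 2) (SP 2 Y) (spPt y0 2) → HH ℚ (k + 2) (SP 2 Y) := fun α =>
    HH.mk ℚ (k + 2) (SP 2 Y) (zc α)
  refine hH3 _ _ η ?_
  intro r α m hrel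
  have h1 : HH.mk ℚ (k + 2) (SP 2 Y) (∑ j, (m j : ℚ) • zc (α j)) = 0 := by
    rw [map_sum]
    simp only [map_smul]
    exact hrel
  rw [HH.mk_eq_zero_iff] at h1
  obtain ⟨w, hw⟩ := h1
  have h2 : ((∑ j, (m j : ℚ) • zc (α j) : ZZ ℚ (k + 2) (SP 2 Y)) : Ch ℚ (k + 3) (SP 2 Y)) =
      ∑ j, (m j : ℚ) • sphc h (rep (α j)) := by
    rw [AddSubmonoidClass.coe_finsetSum]
    rfl
  rw [h2] at hw
  obtain ⟨M, K, p', hM, hp', hprod⟩ := hH1 Y y0 k h hh r (fun j => rep (α j)) m w hw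
  obtain ⟨F, hF⟩ := hPF (SP 2 Y) (SP (2 + K) Y) (spIncK y0 2 K) (spPt y0 2) (spPt y0 (2 + K))
    (spIncK_pt y0 2 K) (k + 1)
  have hs2 := hs 2 le_rfl
  have hsK := hs (2 + K) (by omega)
  have hFα : ∀ j, F (α j) = hcl (p' j) := by
    intro j
    have := hF (rep (α j)) (p' j) (hp' j)
    rwa [hrep] at this
  have hFβ : F (∏ j, α j ^ ((M : ℤ) * m j)) = 1 := by
    have e1 : F (∏ j, α j ^ ((M : ℤ) * m j)) = ∏ j, F (α j) ^ ((M : ℤ) * m j) := by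
      rw [map_prod]
      simp only [map_zpow]
    rw [e1, ← hprod]
    exact Finset.prod_congr rfl fun j _ => by rw [hFα]
  obtain ⟨m', hm', hpow⟩ := hRW (SP 2 Y) (SP (2 + K) Y) (spIncK y0 2 K) (fun q => hbij K q) (k + 1)
    (spPt y0 2) (spPt y0 (2 + K)) (spIncK_pt y0 2 K) (rep (∏ j, α j ^ ((M : ℤ) * m j)))
    (gmap (spIncK y0 2 K) (spIncK_pt y0 2 K) (rep (∏ j, α j ^ ((M : ℤ) * m j))))
    (fun y => rfl) (by
      rw [← hF (rep (∏ j, α j ^ ((M : ℤ) * m j))) _ (fun y => rfl), hrep]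
      exact hFβ)
  rw [hrep] at hpow
  refine ⟨M * m', Nat.mul_pos hM hm', ?_⟩
  rw [← hpow, ← Finset.prod_pow]
  refine Finset.prod_congr rfl fun j _ => ?_
  rw [← zpow_natCast, ← zpow_mul]
  congr 1
  push_cast
  ring

theorem re (hTP : T_TP) (hH1 : T_HUR1) (hH3 : T_HUR3) (hPF : T_PF) (hQH : T_QH) (hSC : T_SC)
    (hBC : T_BC) (hRW : T_RW) : T_RE := by
  intro Y _ _ e hs
  obtain ⟨y0⟩ : Nonempty Y := inferInstance
  refine ⟨(hTP Y e y0).2.2.1, (hTP Y e y0).2.2.2.1, fun y => (hTP Y e y).2.2.2.2, fun y => ?_⟩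
  have hs2 := hs 2 le_rfl
  have K := fun k => key hTP hH1 hH3 hPF hQH hSC hRW Y e hs y0 k
  have hiso : ∀ k : ℕ, Nonempty ((ℚ ⊗[ℤ] Additive (HomotopyGroup.Pi (k + 2) (SP 2 Y) y)) ≃ₗ[ℚ]
      (ℚ ⊗[ℤ] Additive (HomotopyGroup.Pi (k + 2) (SP 2 Y) (spPt y0 2)))) := by
    intro k
    obtain ⟨φ⟩ := hBC (SP 2 Y) y (spPt y0 2) (k + 1)
    let ψ : HomotopyGroup.Pi (k + 2) (SP 2 Y) y ≃* HomotopyGroup.Pi (k + 2) (SP 2 Y) (spPt y0 2) := φ
    exact ⟨(ψ.toAdditive.toIntLinearEquiv).baseChange ℤ ℚ _ _⟩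
  refine ⟨fun k => ?_, fun k hk => ?_⟩
  · obtain ⟨ψ⟩ := hiso k
    have := (K k).1
    exact Module.Finite.equiv ψ.symm
  · obtain ⟨ψ⟩ := hiso k
    have h1 := (K k).1
    have h2 : Subsingleton (HH ℚ (k + 2) (SP 2 Y)) := (hTP Y e y0).2.2.2.1 (k + 2) (by omega)
    have h3 : Module.finrank ℚ (ℚ ⊗[ℤ] Additive (HomotopyGroup.Pi (k + 2) (SP 2 Y) (spPt y0 2))) =
        0 := by
      have h4 := (K k).2
      rw [Module.finrank_zero_of_subsingleton (R := ℚ) (M := HH ℚ (k + 2) (SP 2 Y))] at h4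
      omega
    have h5 : Subsingleton (ℚ ⊗[ℤ] Additive (HomotopyGroup.Pi (k + 2) (SP 2 Y) (spPt y0 2))) :=
      Module.finrank_zero_iff.1 h3
    exact ψ.injective.subsingleton

end Pool.Agent.H93.SPB
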