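import Pool.Agent.H93.SP.Targets
import Pool.Agent.H64.LB.Targets

/-!
# The inputs of the symmetric product block from the toolkit of helper64
-/

open Topology Set
open scoped unitInterval ContinuousMap TensorProduct
open Pool.Agent.H59

namespace Pool.Agent.H93.SPB

open Pool.Agent.H64.LB (HH OO SP VV)

theorem hi (h : Pool.Agent.H64.LB.T_HM) : T_HI := by
  intro X Y _ _ f g hfg q
  exact h ℚ X Y f g hfg q

theorem mv (h : Pool.Agent.H64.LB.T_MVS) : T_MV := by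
  obtain ⟨M⟩ := h ℚ
  refine ⟨fun X _ U V q => M.δ X U V q, ?_, ?_, ?_⟩
  · intro X _ U V hU hV
    refine ⟨fun q x => ?_, fun q x => ?_, fun q y z => ?_, fun x => ?_⟩
    · exact (M.exact_union X U V hU hV q x).symm
    · exact (M.exact_inter X U V hU hV q x).symm
    · exact M.exact_sum X U V hU hV q y z
    · exact M.surj_zero X U V hU hV x
  · intro X X' _ _ U V U' V' f hU hV q x hUo hVo hUo' hVo'
    exact M.natural X X' U V U' V' hUo hVo hUo' hVo' f hU hV q x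
  · intro X X' _ _ U V U' V' f hU hV h h' q x hUo hVo hUo' hVo'
    exact M.anti X X' U V U' V' hUo hVo hUo' hVo' f hU hV q x

theorem cs (h : Pool.Agent.H64.LB.T_CS) : T_CS := by
  intro X _ F hne hF hd q
  obtain ⟨h1, h2⟩ := h ℚ X F hF hne hd q
  refine ⟨fun x => ?_, fun A hA y hy => ?_⟩
  · obtain ⟨U, hU, z, hz⟩ := h1 x
    exact ⟨U, hU, z, hz.symm⟩
  · exact h2 A hA y hy

theorem h0 (h : Pool.Agent.H64.LB.T_DI) : T_H0 := by
  refine ⟨fun Y _ => (h ℚ Y).2.1, fun Y _ y y' hy => (h ℚ Y).2.2.1 y y' hy,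
    fun Y _ φ hφ => (h ℚ Y).2.2.2.1 φ hφ, fun Y Y' _ _ f y => (h ℚ Y).2.2.2.2 Y' f y⟩

/-- a space with the discrete topology -/
def Dsc (Y : Type) : Type := Y

instance (Y : Type) : TopologicalSpace (Dsc Y) := ⊥

instance (Y : Type) : DiscreteTopology (Dsc Y) := ⟨rfl⟩

theorem lc0 (h : Pool.Agent.H64.LB.T_DI) (hm : Pool.Agent.H64.LB.T_HM) : T_LC0 := by
  intro Y _ r hr hh q
  refine subsingleton_of_forall_eq 0 (fun z => ?_)
  let a : C(Y, Dsc Y) := ⟨fun y => (r y : Y), by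
    refine ⟨fun s _ => ?_⟩
    exact hr s⟩
  let b : C(Dsc Y, Y) := ⟨fun y => y, continuous_of_discreteTopology⟩
  have e : r = b.comp a := rfl
  have h1 : HH.map ℚ (q + 1) (ContinuousMap.id Y) = HH.map ℚ (q + 1) r := hm ℚ Y Y _ _ hh (q + 1)
  have h2 : z = HH.map ℚ (q + 1) r z := by
    rw [← h1, HH.map_id]
  have h3 : Subsingleton (HH ℚ (q + 1) (Dsc Y)) := (h ℚ (Dsc Y)).1 inferInstance q
  rw [h2, e, HH.map_comp, Subsingleton.elim (HH.map ℚ (q + 1) a z) 0, map_zero]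

end Pool.Agent.H93.SPB
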