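import Pool.Agent.H93.SP.Targets

/-!
# Module HUR1: relations in homology give relations in homotopy
-/

open Topology Set
open scoped unitInterval ContinuousMap TensorProduct
open Pool.Agent.H59 Pool.Agent.H64.LB

namespace Pool.Agent.H93.SPB

namespace Hur1

noncomputable section

variable {Y : Type} [TopologicalSpace Y] (y0 : Y)

/-! ### Continuous functions with values in formal sums -/

theorem IsC.comp {N : ℕ} {T T' : Type} [TopologicalSpace T] [TopologicalSpace T']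
    {u : T → (Y →₀ ℤ)} (h : IsC y0 N u) (g : C(T', T)) : IsC y0 N (u ∘ g) := by
  obtain ⟨v, hv⟩ := h
  exact ⟨v.comp g, fun t => hv (g t)⟩

/-- differences of continuous functions -/
def Dif (hJ : T_JC) (T : Type) [TopologicalSpace T] : AddSubgroup (T → (Y →₀ ℤ)) where
  carrier := {u | ∃ (N : ℕ) (a b : T → (Y →₀ ℤ)), IsC y0 N a ∧ IsC y0 N b ∧ u = a - b}
  zero_mem' := ⟨0, 0, 0, (hJ Y y0).2.2.2.2.2 T, (hJ Y y0).2.2.2.2.2 T, by simp⟩
  add_mem' := by
    rintro u v ⟨N, a, b, ha, hb, rfl⟩ ⟨N', a', b', ha', hb', rfl⟩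
    exact ⟨N + N', a + a', b + b', (hJ Y y0).2.2.2.2.1 T N N' a a' ha ha',
      (hJ Y y0).2.2.2.2.1 T N N' b b' hb hb', by abel⟩
  neg_mem' := by
    rintro u ⟨N, a, b, ha, hb, rfl⟩
    exact ⟨N, b, a, hb, ha, by abel⟩

theorem dif_comp (hJ : T_JC) {T T' : Type} [TopologicalSpace T] [TopologicalSpace T']
    {u : T → (Y →₀ ℤ)} (h : u ∈ Dif y0 hJ T) (g : C(T', T)) : u ∘ g ∈ Dif y0 hJ T' := by
  obtain ⟨N, a, b, ha, hb, rfl⟩ := h
  exact ⟨N, a ∘ g, b ∘ g, IsC.comp y0 ha g, IsC.comp y0 hb g, rfl⟩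

theorem dif_of_isC (hJ : T_JC) {N : ℕ} {T : Type} [TopologicalSpace T] {u : T → (Y →₀ ℤ)}
    (h : IsC y0 N u) : u ∈ Dif y0 hJ T :=
  ⟨N, u, 0, h, (hJ Y y0).2.2.2.1 T 0 N 0 (Nat.zero_le _) ((hJ Y y0).2.2.2.2.2 T), by simp⟩

/-! ### Clearing denominators -/

theorem exists_int {A : Type} (w : A →₀ ℚ) : ∃ (M : ℕ) (c : A →₀ ℤ), 1 ≤ M ∧
    (M : ℚ) • w = Finsupp.mapRange (Int.castRingHom ℚ) (map_zero _) c := by
  induction w using Finsupp.induction_linear with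
  | zero => exact ⟨1, 0, le_rfl, by simp⟩
  | add f g hf hg =>
    obtain ⟨M, c, hM, hc⟩ := hf
    obtain ⟨M', c', hM', hc'⟩ := hg
    refine ⟨M * M', (M' : ℤ) • c + (M : ℤ) • c', Nat.mul_pos hM hM', ?_⟩
    rw [Finsupp.mapRange_add (map_add _)]
    have e1 : Finsupp.mapRange (Int.castRingHom ℚ) (map_zero _) ((M' : ℤ) • c) =
        (M' : ℚ) • Finsupp.mapRange (Int.castRingHom ℚ) (map_zero _) c := by
      ext a
      simp
    have e2 : Finsupp.mapRange (Int.castRingHom ℚ) (map_zero _) ((M : ℤ) • c') =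
        (M : ℚ) • Finsupp.mapRange (Int.castRingHom ℚ) (map_zero _) c' := by
      ext a
      simp
    rw [e1, e2, ← hc, ← hc', smul_add, smul_smul, smul_smul]
    congr 2
    · push_cast; ring
    · push_cast; ring
  | single a r =>
    refine ⟨r.den, Finsupp.single a r.num, r.den_pos, ?_⟩
    rw [Finsupp.smul_single, Finsupp.mapRange_single]
    congr 1
    simp only [smul_eq_mul, eq_intCast]
    rw [mul_comm]
    exact Rat.mul_den_eq_num r

theorem mapRange_inj {A : Type} {c c' : A →₀ ℤ}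
    (h : Finsupp.mapRange (Int.castRingHom ℚ) (map_zero _) c =
      Finsupp.mapRange (Int.castRingHom ℚ) (map_zero _) c') : c = c' := by
  ext a
  have := DFunLike.congr_fun h a
  simpa using this

/-! ### Evaluation of chains -/

/-- evaluation of integral chains of `SP 2 Y` -/
def ev (n : ℕ) : Ch ℤ n (SP 2 Y) →ₗ[ℤ] (Dl n → (Y →₀ ℤ)) :=
  Finsupp.linearCombination ℤ (fun (τ : Smp n (SP 2 Y)) t => jj y0 2 (τ t))

theorem ev_single (n : ℕ) (τ : Smp n (SP 2 Y)) (a : ℤ) :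
    ev y0 n (Finsupp.single τ a) = a • fun t => jj y0 2 (τ t) := by
  simp [ev, Finsupp.linearCombination_single]

theorem ev_bd (n : ℕ) (c : Ch ℤ (n + 1) (SP 2 Y)) :
    ev y0 n (bd ℤ n (SP 2 Y) c) =
      ∑ i : Fin (n + 1), (-1 : ℤ) ^ (i : ℕ) • (ev y0 (n + 1) c ∘ cf i) := by
  induction c using Finsupp.induction_linear with
  | zero =>
    simp only [map_zero]
    symm
    refine Finset.sum_eq_zero fun i _ => ?_
    have : ((0 : Dl (n + 1) → (Y →₀ ℤ)) ∘ cf i) = 0 := rfl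
    rw [this, smul_zero]
  | add f g hf hg =>
    simp only [map_add, hf, hg]
    rw [← Finset.sum_add_distrib]
    refine Finset.sum_congr rfl fun i _ => ?_
    rw [← smul_add]
    rfl
  | single τ a =>
    rw [bd_single, map_smul, map_sum, ev_single, Finset.smul_sum]
    refine Finset.sum_congr rfl fun i _ => ?_
    rw [map_smul, ev_single, one_smul, smul_comm]
    rfl

theorem ev_mem (hJ : T_JC) (n : ℕ) (c : Ch ℤ n (SP 2 Y)) : ev y0 n c ∈ Dif y0 hJ (Dl n) := by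
  induction c using Finsupp.induction_linear with
  | zero => rw [map_zero]; exact AddSubgroup.zero_mem _
  | add f g hf hg => rw [map_add]; exact AddSubgroup.add_mem _ hf hg
  | single τ a =>
    rw [ev_single]
    exact AddSubgroup.zsmul_mem _ (dif_of_isC y0 hJ ⟨τ, fun _ => rfl⟩) a

/-! ### Loops representing continuous functions -/

variable {k : ℕ}

theorem exists_loop (hJ : T_JC) {a N : ℕ} {u : (Fin (k + 2) → I) → (Y →₀ ℤ)} (h : IsC y0 a u)
    (haN : a ≤ N) (hb : ∀ y ∈ Cube.boundary (Fin (k + 2)), u y = 0) :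
    ∃ P : GenLoop (Fin (k + 2)) (SP N Y) (spPt y0 N), ∀ y, jj y0 N (P y) = u y := by
  obtain ⟨v, hv⟩ := (hJ Y y0).2.2.2.1 _ a N u haN h
  refine ⟨⟨v, fun y hy => ?_⟩, fun y => (hv y).symm⟩
  apply (hJ Y y0).1 N
  rw [← hv, hb y hy, (hJ Y y0).2.2.1]

theorem loop_ext (hJ : T_JC) {N : ℕ} {P Q : GenLoop (Fin (k + 2)) (SP N Y) (spPt y0 N)}
    (h : ∀ y, jj y0 N (P y) = jj y0 N (Q y)) : P = Q := by
  ext y
  exact (hJ Y y0).1 N (h y)

/-- `u` is continuous and represents `g` -/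
def Rep (N a : ℕ) (u : (Fin (k + 2) → I) → (Y →₀ ℤ))
    (g : HomotopyGroup.Pi (k + 2) (SP N Y) (spPt y0 N)) : Prop :=
  IsC y0 a u ∧ (∀ y ∈ Cube.boundary (Fin (k + 2)), u y = 0) ∧
    ∀ P : GenLoop (Fin (k + 2)) (SP N Y) (spPt y0 N), (∀ y, jj y0 N (P y) = u y) → hcl P = g

theorem rep_zero (hJ : T_JC) (N : ℕ) : Rep (k := k) y0 N 0 0 1 := by
  refine ⟨(hJ Y y0).2.2.2.2.2 _, fun _ _ => rfl, fun P hP => ?_⟩
  have : P = GenLoop.const := by
    apply loop_ext y0 hJ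
    intro y
    rw [hP y]
    change 0 = jj y0 N (spPt y0 N)
    rw [(hJ Y y0).2.2.1]
  rw [this]
  rfl

theorem rep_add (hJ : T_JC) (hE : T_EH) {N a b : ℕ} {u v : (Fin (k + 2) → I) → (Y →₀ ℤ)}
    {g g' : HomotopyGroup.Pi (k + 2) (SP N Y) (spPt y0 N)} (hu : Rep y0 N a u g)
    (hv : Rep y0 N b v g') (hab : a + b ≤ N) : Rep y0 N (a + b) (u + v) (g * g') := by
  refine ⟨(hJ Y y0).2.2.2.2.1 _ a b u v hu.1 hv.1, fun y hy => ?_, fun P hP => ?_⟩
  · rw [Pi.add_apply, hu.2.1 y hy, hv.2.1 y hy, add_zero]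
  · obtain ⟨P₁, h₁⟩ := exists_loop y0 hJ hu.1 (by omega : a ≤ N) hu.2.1
    obtain ⟨P₂, h₂⟩ := exists_loop y0 hJ hv.1 (by omega : b ≤ N) hv.2.1
    rw [hE Y y0 k a b N hab u v hu.1 hv.1 (fun y hy => ⟨hu.2.1 y hy, hv.2.1 y hy⟩) P P₁ P₂ hP h₁ h₂,
      hu.2.2 P₁ h₁, hv.2.2 P₂ h₂]

theorem rep_nsmul (hJ : T_JC) (hE : T_EH) {N a : ℕ} {u : (Fin (k + 2) → I) → (Y →₀ ℤ)}
    {g : HomotopyGroup.Pi (k + 2) (SP N Y) (spPt y0 N)} (hu : Rep y0 N a u g) (n : ℕ)
    (hn : n * a ≤ N) : Rep y0 N (n * a) (n • u) (g ^ n) := by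
  induction n with
  | zero =>
    rw [zero_mul, zero_smul, pow_zero]
    exact rep_zero y0 hJ N
  | succ n ih =>
    have h1 : (n + 1) * a = n * a + a := by ring
    rw [h1] at hn ⊢
    rw [succ_nsmul, pow_succ]
    exact rep_add y0 hJ hE (ih (by omega)) hu hn

theorem rep_sum (hJ : T_JC) (hE : T_EH) {N : ℕ} {ι : Type} (s : Finset ι) (a : ι → ℕ)
    (u : ι → (Fin (k + 2) → I) → (Y →₀ ℤ))
    (g : ι → HomotopyGroup.Pi (k + 2) (SP N Y) (spPt y0 N))
    (h : ∀ j ∈ s, Rep y0 N (a j) (u j) (g j)) (hs : ∑ j ∈ s, a j ≤ N) :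
    Rep y0 N (∑ j ∈ s, a j) (∑ j ∈ s, u j) (∏ j ∈ s, g j) := by
  classical
  induction s using Finset.induction_on with
  | empty =>
    rw [Finset.sum_empty, Finset.sum_empty, Finset.prod_empty]
    exact rep_zero y0 hJ N
  | insert j s hj ih =>
    rw [Finset.sum_insert hj] at hs
    rw [Finset.sum_insert hj, Finset.sum_insert hj, Finset.prod_insert hj]
    exact rep_add y0 hJ hE (h j (Finset.mem_insert_self j s))
      (ih (fun i hi => h i (Finset.mem_insert_of_mem hi)) (by omega)) hs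

theorem jj_spIncK (hJ : T_JC) (K : ℕ) (z : SP 2 Y) :
    jj y0 (2 + K) (spIncK y0 2 K z) = jj y0 2 z := by
  induction K with
  | zero => rfl
  | succ K ih =>
    change jj y0 (2 + K + 1) (spInc y0 (2 + K) (spIncK y0 2 K z)) = _
    rw [(hJ Y y0).2.1, ih]

end

end Hur1

open Hur1

theorem hur1 (hJ : T_JC) (hMN : T_MN) (hD2 : T_D2) (hD3 : T_D3) (hE : T_EH) : T_HUR1 := by
  classical
  intro Y _ _ y0 k h hh r p m w hw
  -- clear denominators
  obtain ⟨M, c, hM, hc⟩ := exists_int w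
  let sz : Fin r → Ch ℤ (k + 3) (SP 2 Y) := fun j =>
    Finsupp.single ((p j).1.comp (h : C(Dl (k + 3), Fin (k + 2) → I))) 1 -
      Finsupp.single (ContinuousMap.const _ (spPt y0 2)) 1
  have hsz : ∀ j, Finsupp.mapRange (Int.castRingHom ℚ) (map_zero _) (sz j) = sphc h (p j) := by
    intro j
    simp only [sz, sphc]
    rw [Finsupp.mapRange_sub (fun x y => map_sub _ x y), Finsupp.mapRange_single,
      Finsupp.mapRange_single]
    simp
  have hbc : bd ℤ (k + 3) (SP 2 Y) c = ∑ j, ((M : ℤ) * m j) • sz j := by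
    apply mapRange_inj
    have e1 : Finsupp.mapRange (Int.castRingHom ℚ) (map_zero _) (bd ℤ (k + 3) (SP 2 Y) c) =
        bd ℚ (k + 3) (SP 2 Y) (Finsupp.mapRange (Int.castRingHom ℚ) (map_zero _) c) :=
      (altbd_mapRange (R := ℤ) (Int.castRingHom ℚ) _ c).symm
    rw [e1, ← hc, map_smul, hw, Finset.smul_sum]
    have e2 : Finsupp.mapRange (Int.castRingHom ℚ) (map_zero _) (∑ j, ((M : ℤ) * m j) • sz j) =
        ∑ j, Finsupp.mapRange (Int.castRingHom ℚ) (map_zero _) (((M : ℤ) * m j) • sz j) :=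
      map_sum (Finsupp.mapRange.addMonoidHom (Int.castRingHom ℚ).toAddMonoidHom) _ _
    rw [e2]
    refine Finset.sum_congr rfl fun j _ => ?_
    rw [← hsz j, smul_smul]
    ext a
    simp
  -- the functions
  let W : Dl (k + 4) → (Y →₀ ℤ) := ev y0 (k + 4) c
  let u : Fin r → (Fin (k + 2) → I) → (Y →₀ ℤ) := fun j y => jj y0 2 (p j y)
  let x : Dl (k + 3) → (Y →₀ ℤ) := fun t => ∑ j, ((M : ℤ) * m j) • u j (h t)
  have hub : ∀ j, ∀ y ∈ Cube.boundary (Fin (k + 2)), u j y = 0 := by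
    intro j y hy
    change jj y0 2 ((p j).1 y) = 0
    rw [(p j).2 y hy, (hJ Y y0).2.2.1]
  have huC : ∀ j, IsC y0 2 (u j) := fun j => ⟨(p j).1, fun _ => rfl⟩
  have hx : x = ev y0 (k + 3) (bd ℤ (k + 3) (SP 2 Y) c) := by
    rw [hbc, map_sum]
    funext t
    rw [Finset.sum_apply]
    refine Finset.sum_congr rfl fun j _ => ?_
    rw [map_smul]
    simp only [sz, map_sub, ev_single, one_smul, Pi.smul_apply, Pi.sub_apply]
    have : jj y0 2 ((ContinuousMap.const (Dl (k + 3)) (spPt y0 2)) t) = 0 := (hJ Y y0).2.2.1 2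
    rw [this, sub_zero]
    rfl
  have hxW : x = ∑ i : Fin (k + 4), (-1 : ℤ) ^ (i : ℕ) • (W ∘ cf i) := by
    rw [hx]
    exact ev_bd y0 (k + 3) c
  have hxS : x ∈ Dif y0 hJ (Dl (k + 3)) := by
    rw [hx]
    exact ev_mem y0 hJ _ _
  have hxf : ∀ i : Fin (k + 3), x ∘ cf i = 0 := by
    intro i
    funext t
    change ∑ j, ((M : ℤ) * m j) • u j (h (cf i t)) = 0
    refine Finset.sum_eq_zero fun j _ => ?_
    rw [hub j _ ((hh _).1 ⟨i, ?_⟩), smul_zero]
    change (stdSimplex.map (Fin.succAbove i) t : Fin (k + 3) → ℝ) i = 0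
    simp only [stdSimplex.map_coe, FunOnFinite.linearMap_apply_apply]
    refine Finset.sum_eq_zero fun j hj => ?_
    simp only [Finset.mem_filter] at hj
    exact absurd hj.2 (Fin.succAbove_ne i j)
  obtain ⟨y, ⟨N, y1, y2, ⟨a1, ha1⟩, ⟨a2, ha2⟩, hy⟩, hy0, hyx⟩ :=
    hMN (Y →₀ ℤ) (fun n => Dif y0 hJ (Dl n)) (fun n i u hu => dif_comp y0 hJ hu (cf i))
      (fun n i u hu => dif_comp y0 hJ hu (sg i)) (k + 2) x W hxS (ev_mem y0 hJ _ _) hxf hxW
  have hjinj := (hJ Y y0).1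
  have hfaces : ∀ i : Fin (k + 3), a1.comp (cf i.castSucc) = a2.comp (cf i.castSucc) := by
    intro i
    ext t : 1
    apply hjinj N
    have h1 := congrFun (hy0 i) t
    simp only [hy, Function.comp, Pi.sub_apply, Pi.zero_apply, ha1, ha2] at h1
    exact sub_eq_zero.1 h1
  obtain ⟨F⟩ := hD2 (SP N Y) (k + 2) a1 a2 hfaces
  -- the homotopy on the cube
  let H : C(I × (Fin (k + 2) → I), SP N Y) :=
    F.toHomotopy.toContinuousMap.comp
      ((ContinuousMap.id I).prodMap (h.symm : C(Fin (k + 2) → I, Dl (k + 3))))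
  let A1 : C(Fin (k + 2) → I, SP N Y) :=
    (a1.comp (cf (Fin.last (k + 3)))).comp (h.symm : C(Fin (k + 2) → I, Dl (k + 3)))
  let A2 : C(Fin (k + 2) → I, SP N Y) :=
    (a2.comp (cf (Fin.last (k + 3)))).comp (h.symm : C(Fin (k + 2) → I, Dl (k + 3)))
  have H0 : ∀ z, H (0, z) = A1 z := fun z => F.map_zero_left (h.symm z)
  have H1 : ∀ z, H (1, z) = A2 z := fun z => F.map_one_left (h.symm z)
  have Hb : ∀ z ∈ Cube.boundary (Fin (k + 2)), ∀ s, H (s, z) = A1 z := by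
    intro z hz s
    refine F.eq_fst s (x := h.symm z) ?_
    rw [Set.mem_ofPred_eq, hh]
    simpa using hz
  have hAA : ∀ z, jj y0 N (A1 z) - jj y0 N (A2 z) = ∑ j, ((M : ℤ) * m j) • u j z := by
    intro z
    have h1 := congrFun hyx (h.symm z)
    simp only [hy, Function.comp, Pi.sub_apply, ha1, ha2, x] at h1
    rw [h.apply_symm_apply] at h1
    exact h1
  let P : (Fin (k + 2) → I) → (Y →₀ ℤ) := ∑ j, ((M : ℤ) * m j).toNat • u j
  let R : (Fin (k + 2) → I) → (Y →₀ ℤ) := ∑ j, (-((M : ℤ) * m j)).toNat • u j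
  let aP : ℕ := ∑ j, ((M : ℤ) * m j).toNat * 2
  let aR : ℕ := ∑ j, (-((M : ℤ) * m j)).toNat * 2
  have hPR : ∀ z, P z - R z = ∑ j, ((M : ℤ) * m j) • u j z := by
    intro z
    simp only [P, R, Finset.sum_apply, Pi.smul_apply]
    rw [← Finset.sum_sub_distrib]
    refine Finset.sum_congr rfl fun j _ => ?_
    rw [← natCast_zsmul, ← natCast_zsmul, ← sub_smul, Int.toNat_sub_toNat_neg]
  -- the representing data in `SP (2 + K)`
  have hRep : ∀ K : ℕ, aP ≤ 2 + K → aR ≤ 2 + K →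
      ∀ p' : Fin r → GenLoop (Fin (k + 2)) (SP (2 + K) Y) (spPt y0 (2 + K)),
      (∀ j z, p' j z = spIncK y0 2 K (p j z)) →
      Rep y0 (2 + K) aP P (∏ j, hcl (p' j) ^ ((M : ℤ) * m j).toNat) ∧
      Rep y0 (2 + K) aR R (∏ j, hcl (p' j) ^ (-((M : ℤ) * m j)).toNat) := by
    intro K hK1 hK2 p' hp'
    have h1 : ∀ j, Rep y0 (2 + K) 2 (u j) (hcl (p' j)) := by
      intro j
      refine ⟨huC j, hub j, fun Q hQ => ?_⟩
      have : Q = p' j := by
        apply loop_ext y0 hJ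
        intro z
        rw [hQ z, hp' j z, jj_spIncK y0 hJ]
      rw [this]
    have hle : ∀ (n : Fin r → ℕ), ∑ j, n j * 2 ≤ 2 + K → ∀ j, n j * 2 ≤ 2 + K := by
      intro n hn j
      exact le_trans (Finset.single_le_sum (f := fun j => n j * 2) (fun i _ => Nat.zero_le _)
        (Finset.mem_univ j)) hn
    exact ⟨rep_sum y0 hJ hE _ _ _ _ (fun j _ => rep_nsmul y0 hJ hE (h1 j) _ (hle _ hK1 j)) hK1,
      rep_sum y0 hJ hE _ _ _ _ (fun j _ => rep_nsmul y0 hJ hE (h1 j) _ (hle _ hK2 j)) hK2⟩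
  have hPb : ∀ z ∈ Cube.boundary (Fin (k + 2)), P z = 0 := by
    intro z hz
    simp only [P, Finset.sum_apply, Pi.smul_apply]
    exact Finset.sum_eq_zero fun j _ => by rw [hub j z hz, smul_zero]
  have hRb : ∀ z ∈ Cube.boundary (Fin (k + 2)), R z = 0 := by
    intro z hz
    simp only [R, Finset.sum_apply, Pi.smul_apply]
    exact Finset.sum_eq_zero fun j _ => by rw [hub j z hz, smul_zero]
  have hCs : IsC y0 aP P ∧ IsC y0 aR R := by
    have hp0 : ∀ K, ∃ p' : Fin r → GenLoop (Fin (k + 2)) (SP (2 + K) Y) (spPt y0 (2 + K)),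
        ∀ j z, p' j z = spIncK y0 2 K (p j z) := by
      intro K
      refine ⟨fun j => ⟨(spIncK y0 2 K).comp (p j).1, fun z hz => ?_⟩, fun j z => rfl⟩
      change spIncK y0 2 K ((p j).1 z) = _
      rw [(p j).2 z hz, spIncK_pt]
    obtain ⟨p', hp'⟩ := hp0 (aP + aR)
    obtain ⟨r1, r2⟩ := hRep (aP + aR) (by omega) (by omega) p' hp'
    exact ⟨r1.1, r2.1⟩
  -- cancellation
  have hmono := (hJ Y y0).2.2.2.1
  have hadd := (hJ Y y0).2.2.2.2.1
  obtain ⟨N', Ψ, hΨC, hΨ0, hΨ1, hΨb⟩ := hD3 Y y0 (k + 2) (N + aR + aP) (fun z => jj y0 N (A2 z)) P R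
    (fun q => jj y0 N (H q) + R q.2)
    (hmono _ N _ _ (by omega) ⟨A2, fun _ => rfl⟩)
    (hmono _ aP _ _ (by omega) hCs.1) (hmono _ aR _ _ (by omega) hCs.2)
    (hmono _ (N + aR) _ _ (by omega) (hadd _ N aR (fun q => jj y0 N (H q))
      (fun q : I × (Fin (k + 2) → I) => R q.2) ⟨H, fun _ => rfl⟩
      (IsC.comp y0 hCs.2 ⟨fun q : I × (Fin (k + 2) → I) => q.2, by fun_prop⟩)))
    (fun z => by
      simp only [H0]
      have h1 := hAA z
      rw [← hPR z] at h1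
      rw [sub_eq_sub_iff_add_eq_add] at h1
      rw [h1, add_comm])
    (fun z => by simp only [H1])
    (fun z hz => ⟨hPb z hz, hRb z hz, fun s => by
      simp only [Hb z hz s, hRb z hz, add_zero]
      rw [← H1 z, Hb z hz 1]⟩)
  -- conclusion
  let K : ℕ := N' + aP + aR
  let p' : Fin r → GenLoop (Fin (k + 2)) (SP (2 + K) Y) (spPt y0 (2 + K)) := fun j =>
    ⟨(spIncK y0 2 K).comp (p j).1, fun z hz => by
      change spIncK y0 2 K ((p j).1 z) = _
      rw [(p j).2 z hz, spIncK_pt]⟩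
  refine ⟨M, K, p', hM, fun j z => rfl, ?_⟩
  obtain ⟨r1, r2⟩ := hRep K (by omega) (by omega) p' (fun j z => rfl)
  obtain ⟨P', hP'⟩ := exists_loop y0 hJ hCs.1 (by omega : aP ≤ 2 + K) hPb
  obtain ⟨R', hR'⟩ := exists_loop y0 hJ hCs.2 (by omega : aR ≤ 2 + K) hRb
  obtain ⟨G, hG⟩ := hmono _ N' (2 + K) Ψ (by omega) hΨC
  have hPR' : hcl P' = hcl R' := by
    apply Quotient.sound
    refine ⟨⟨⟨G, fun z => ?_, fun z => ?_⟩, fun s z hz => ?_⟩⟩
    · apply hjinj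
      change jj y0 (2 + K) (G (0, z)) = jj y0 (2 + K) (P' z)
      rw [← hG, hΨ0, hP']
    · apply hjinj
      change jj y0 (2 + K) (G (1, z)) = jj y0 (2 + K) (R' z)
      rw [← hG, hΨ1, hR']
    · apply hjinj
      change jj y0 (2 + K) (G (s, z)) = jj y0 (2 + K) (P' z)
      rw [← hG, hΨb z hz, hP', hPb z hz]
  have e1 := r1.2.2 P' hP'
  have e2 := r2.2.2 R' hR'
  have e3 : (∏ j, hcl (p' j) ^ ((M : ℤ) * m j).toNat) =
      ∏ j, hcl (p' j) ^ (-((M : ℤ) * m j)).toNat := by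
    rw [← e1, ← e2, hPR']
  have e4 : (∏ j, hcl (p' j) ^ ((M : ℤ) * m j)) =
      (∏ j, hcl (p' j) ^ ((M : ℤ) * m j).toNat) /
        ∏ j, hcl (p' j) ^ (-((M : ℤ) * m j)).toNat := by
    rw [← Finset.prod_div_distrib]
    refine Finset.prod_congr rfl fun j _ => ?_
    rw [← zpow_natCast, ← zpow_natCast, div_eq_mul_inv, ← zpow_sub, Int.toNat_sub_toNat_neg]
  rw [e4, e3, div_self']

end Pool.Agent.H93.SPB
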