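import Pool.Agent.H93.SP.AsmRE
import Pool.Agent.H64.LB.Targets

/-!
# The interface with the block of helper64: topology of `SP 2 (VV 3)`
-/

open Topology Set
open scoped unitInterval ContinuousMap TensorProduct
open Pool.Agent.H59

namespace Pool.Agent.H93.SPB

open Pool.Agent.H64.LB (HH HQ OO SP VV RationallyElliptic)

theorem spt (hRE : T_RE) (hC : Pool.Agent.H64.LB.T_COH) (hP : Pool.Agent.H64.LB.T_PHAM)
    (hS : Pool.Agent.H64.LB.T_SCP) (hO : Pool.Agent.H64.LB.T_SCO)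
    (hH : Pool.Agent.H64.LB.T_SCH) : Pool.Agent.H64.LB.T_SPT := by
  obtain ⟨e, _⟩ := hP 3
  have s1 : SimplyConnectedSpace (OO 3) := hO
  have s2 : SimplyConnectedSpace (VV 3) := hH _ _ ⟨e.symm⟩ s1
  have s3 : ∀ N, SimplyConnectedSpace (SP N (VV 3)) := fun N => hS (VV 3) N s2
  obtain ⟨r1, r2, r3, r4⟩ := hRE (VV 3) ⟨e⟩ (fun N _ => s3 N)
  obtain ⟨φ, _⟩ := hC
  refine ⟨⟨s3 2, ⟨fun k => ?_, 7, fun k hk => ?_⟩, fun y => ⟨(r4 y).1, 5, (r4 y).2⟩⟩,
    r3 (VV.base 3)⟩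
  · have := r1 k
    exact Module.Finite.equiv (φ k (SP 2 (VV 3))).symm
  · have := r2 k hk
    exact (φ k (SP 2 (VV 3))).injective.subsingleton

end Pool.Agent.H93.SPB
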