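import Pool.Agent.H93.SP.Targets

/-!
# Assembly of the symmetric product block
-/

open Topology Set
open scoped unitInterval ContinuousMap TensorProduct
open Pool.Agent.H59 Pool.Agent.H64.LB

namespace Pool.Agent.H93.SPB

theorem trl (h1 : T_TRU) (h2 : T_TRB1) (h3 : T_TRB2) (h4 : T_TRB3) : T_TRL := by
  intro V Q _ _ _ a ha O hO
  obtain ⟨C, hC, rfl⟩ := h4 V Q a ha O hO
  exact h1 V Q a {P | Basic a P} (fun P hP => ⟨hP.1, h2 V Q a ha P hP⟩)
    (fun P hP P' hP' => h3 V Q a P P' hP hP') C hC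

section TP

variable {Y Y' : Type} [TopologicalSpace Y] [TopologicalSpace Y']

theorem spMap_comp (N : ℕ) {Y'' : Type} [TopologicalSpace Y''] (f : C(Y, Y')) (g : C(Y', Y'')) :
    spMap N (g.comp f) = (spMap N g).comp (spMap N f) := by
  ext z
  obtain ⟨x, rfl⟩ := proj_surjective N Y z
  rfl

/-- naturality of adding a point -/
theorem spMap_inc (N : ℕ) (f : C(Y, Y')) (y0 : Y) :
    (spMap (N + 1) f).comp (spInc y0 N) = (spInc (f y0) N).comp (spMap N f) := by
  ext z
  obtain ⟨x, rfl⟩ := proj_surjective N Y z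
  change proj (N + 1) Y' _ = proj (N + 1) Y' _
  congr 1
  funext i
  refine Fin.lastCases ?_ (fun j => ?_) i <;> simp [snocC]

/-- a homotopy equivalence induces bijections on the homology of the symmetric products -/
theorem spMap_bij (h1 : T_HI) (h2 : T_SPH) (e : Y ≃ₕ Y') (N q : ℕ) :
    Function.Bijective (HH.map ℚ q (spMap N e.toFun)) := by
  have a1 := h2 Y Y' e.toFun e.invFun e.left_inv N
  have a2 := h2 Y' Y e.invFun e.toFun e.right_inv N
  have b1 := h1 _ _ _ _ a1 q
  have b2 := h1 _ _ _ _ a2 q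
  refine ⟨?_, ?_⟩
  · refine Function.LeftInverse.injective (g := HH.map ℚ q (spMap N e.invFun)) (fun z => ?_)
    rw [← HH.map_comp, b1, HH.map_id]
  · refine Function.RightInverse.surjective (g := HH.map ℚ q (spMap N e.invFun)) (fun z => ?_)
    rw [← HH.map_comp, b2, HH.map_id]

/-- the homeomorphism of `Y` with `SP 1 Y` -/
def one (Y : Type) [TopologicalSpace Y] : C(Y, SP 1 Y) :=
  (proj 1 Y).comp ⟨fun y _ => y, by fun_prop⟩

/-- its inverse -/
def oneInv (Y : Type) [TopologicalSpace Y] : C(SP 1 Y, Y) :=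
  ⟨Quotient.lift (s := spSetoid 1 Y) (fun x => x 0) (by
    rintro x y ⟨s, rfl⟩
    simp [Subsingleton.elim (s 0) 0]), Continuous.quotient_lift (by fun_prop) _⟩

theorem one_bij (Y : Type) [TopologicalSpace Y] (q : ℕ) :
    Function.Bijective (HH.map ℚ q (one Y)) := by
  have e1 : (oneInv Y).comp (one Y) = ContinuousMap.id Y := by
    ext y
    rfl
  have e2 : (one Y).comp (oneInv Y) = ContinuousMap.id (SP 1 Y) := by
    ext z
    obtain ⟨x, rfl⟩ := proj_surjective 1 Y z
    change proj 1 Y _ = proj 1 Y x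
    congr 1
    funext i
    rw [Subsingleton.elim i 0]
    rfl
  refine ⟨?_, ?_⟩
  · refine Function.LeftInverse.injective (g := HH.map ℚ q (oneInv Y)) (fun z => ?_)
    rw [← HH.map_comp, e1, HH.map_id]
  · refine Function.RightInverse.surjective (g := HH.map ℚ q (oneInv Y)) (fun z => ?_)
    rw [← HH.map_comp, e2, HH.map_id]

theorem inc_eq (y0 : Y) : SP.inc y0 = (spInc y0 1).comp (one Y) := by
  ext y
  change SP.mk _ = SP.mk _
  congr 1
  funext i
  fin_cases i
  · rfl
  · rfl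

/-- a map conjugate to a bijective one -/
theorem bij_of_conj {A B A' B' : Type} [TopologicalSpace A] [TopologicalSpace B]
    [TopologicalSpace A'] [TopologicalSpace B'] (u : C(A, B)) (u' : C(A', B')) (f : C(A, A'))
    (g : C(B, B')) (q : ℕ) (h : g.comp u = u'.comp f) (hf : Function.Bijective (HH.map ℚ q f))
    (hg : Function.Bijective (HH.map ℚ q g)) (hu : Function.Bijective (HH.map ℚ q u')) :
    Function.Bijective (HH.map ℚ q u) := by
  have e : (HH.map ℚ q g) ∘ (HH.map ℚ q u) = (HH.map ℚ q u') ∘ (HH.map ℚ q f) := by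
    funext z
    simp only [Function.comp]
    rw [← HH.map_comp, ← HH.map_comp, h]
  have hb : Function.Bijective ((HH.map ℚ q g) ∘ (HH.map ℚ q u)) := by
    rw [e]
    exact hu.comp hf
  exact (Function.Bijective.of_comp_iff' hg _).1 hb

theorem tp (h1 : T_HI) (h2 : T_SPH) (h3 : T_TRO) (h4 : T_TRH) (h5 : T_INJ) (h6 : T_SUR)
    (h7 : T_SUR3) (h8 : T_FIN) : T_TP := by
  intro Y _ ⟨e⟩ y0
  have hT : ∀ N, TRN Y N := fun N => h4 (OO 3) Y ⟨e.symm⟩ N (h3 3 N)
  have hI := h5 Y y0 hT
  have hO : ∀ N, TRN (OO 3) N := fun N => h3 3 N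
  have hb : ∀ N q, 2 ≤ N → Function.Bijective (HH.map ℚ q (spInc y0 N)) := by
    intro N q hN
    exact bij_of_conj _ (spInc (e.toFun y0) N) (spMap N e.toFun) (spMap (N + 1) e.toFun) q
      (spMap_inc N e.toFun y0) (spMap_bij h1 h2 e N q) (spMap_bij h1 h2 e (N + 1) q)
      ⟨h5 (OO 3) (e.toFun y0) hO N q, h6 (e.toFun y0) N q hN⟩
  refine ⟨hT, ?_, ?_, ?_, ?_⟩
  · intro K q
    induction K with
    | zero =>
      have : HH.map ℚ q (spIncK y0 2 0) = LinearMap.id := by
        ext z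
        exact HH.map_id ℚ q z
      rw [this]
      exact Function.bijective_id
    | succ K ih =>
      have e1 : (HH.map ℚ q (spIncK y0 2 (K + 1)) : _ → _) =
          (HH.map ℚ q (spInc y0 (2 + K))) ∘ (HH.map ℚ q (spIncK y0 2 K)) := by
        funext z
        exact HH.map_comp ℚ q _ _ z
      rw [e1]
      exact (hb (2 + K) q (by omega)).comp ih
  · intro q
    have hbij := spMap_bij h1 h2 e 2 q
    have := h8.1 q
    exact Module.Finite.equiv (LinearEquiv.ofBijective _ hbij).symm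
  · intro q hq
    have := h8.2 q hq
    exact (spMap_bij h1 h2 e 2 q).1.subsingleton
  · rw [inc_eq]
    have hb1 : Function.Bijective (HH.map ℚ 3 (spInc y0 1)) :=
      bij_of_conj _ (spInc (e.toFun y0) 1) (spMap 1 e.toFun) (spMap (1 + 1) e.toFun) 3
        (spMap_inc 1 e.toFun y0) (spMap_bij h1 h2 e 1 3) (spMap_bij h1 h2 e (1 + 1) 3)
        ⟨h5 (OO 3) (e.toFun y0) hO 1 3, h7 (e.toFun y0)⟩
    have e1 : (HH.map ℚ 3 ((spInc y0 1).comp (one Y)) : _ → _) =
        (HH.map ℚ 3 (spInc y0 1)) ∘ (HH.map ℚ 3 (one Y)) := by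
      funext z
      exact HH.map_comp ℚ 3 _ _ z
    rw [e1]
    exact hb1.comp (one_bij Y 3)

end TP

end Pool.Agent.H93.SPB
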