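import Mathlib
import Pool.Agent.H64.LB.Spaces

/-!
# Symmetric products: definitions

Homology is `HH ℚ q Y` of `Pool.Agent.H64.LB.Hom` (unreduced singular homology in degree `q`);
`Smp n Y` are the singular simplices with `n` vertices; `SP N Y` is the symmetric product of
`Pool.Agent.H64.LB.Spaces`, `OO n` the open model.
-/

open Topology Set
open scoped unitInterval
open Pool.Agent.H59 Pool.Agent.H64.LB

namespace Pool.Agent.H93.SPB

noncomputable section

/-! ### Symmetric products -/

variable {Y Y' : Type} [TopologicalSpace Y] [TopologicalSpace Y'] {N : ℕ}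

/-- the projection of `Y^N` onto `SP^N Y` -/
def proj (N : ℕ) (Y : Type) [TopologicalSpace Y] : C(Fin N → Y, SP N Y) :=
  ⟨SP.mk, SP.continuous_mk⟩

/-- permutation of the coordinates -/
def permC (s : Equiv.Perm (Fin N)) (Y : Type) [TopologicalSpace Y] : C(Fin N → Y, Fin N → Y) :=
  ⟨fun x => x ∘ s, by fun_prop⟩

theorem proj_perm (s : Equiv.Perm (Fin N)) (x : Fin N → Y) : proj N Y (x ∘ s) = proj N Y x :=
  (Quotient.sound (s := spSetoid N Y) ⟨s, rfl⟩).symm

theorem proj_surjective (N : ℕ) (Y : Type) [TopologicalSpace Y] :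
    Function.Surjective (proj N Y) := Quotient.mk_surjective

theorem proj_eq_iff {x y : Fin N → Y} :
    proj N Y x = proj N Y y ↔ ∃ s : Equiv.Perm (Fin N), y = x ∘ s :=
  ⟨fun h => Quotient.exact (s := spSetoid N Y) h, fun h => Quotient.sound (s := spSetoid N Y) h⟩

theorem proj_isQuotientMap (N : ℕ) (Y : Type) [TopologicalSpace Y] :
    IsQuotientMap (proj N Y) := isQuotientMap_quotient_mk'

theorem proj_isOpenMap (N : ℕ) (Y : Type) [TopologicalSpace Y] : IsOpenMap (proj N Y) := by
  intro U hU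
  rw [← (proj_isQuotientMap N Y).isOpen_preimage]
  have : (proj N Y) ⁻¹' ((proj N Y) '' U) = ⋃ s : Equiv.Perm (Fin N), (permC s Y) ⁻¹' U := by
    ext x
    simp only [mem_preimage, mem_image, mem_iUnion]
    constructor
    · rintro ⟨y, hy, h⟩
      obtain ⟨s, hs⟩ := proj_eq_iff.1 h.symm
      exact ⟨s, by simpa [permC, ← hs] using hy⟩
    · rintro ⟨s, hs⟩
      exact ⟨x ∘ s, hs, proj_perm s x⟩
  rw [this]
  exact isOpen_iUnion fun s => hU.preimage (permC s Y).continuous

/-- functoriality of the symmetric product -/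
def spMap (N : ℕ) (f : C(Y, Y')) : C(SP N Y, SP N Y') :=
  ⟨Quotient.map (sa := spSetoid N Y) (sb := spSetoid N Y') (fun x => f ∘ x)
    (by rintro x y ⟨s, rfl⟩; exact ⟨s, rfl⟩),
    Continuous.quotient_map' (by fun_prop) _⟩

@[simp] theorem spMap_proj (N : ℕ) (f : C(Y, Y')) (x : Fin N → Y) :
    spMap N f (proj N Y x) = proj N Y' (f ∘ x) := rfl

/-- a permutation extended by a fixed last element -/
def permSnoc (s : Equiv.Perm (Fin N)) : Equiv.Perm (Fin (N + 1)) where
  toFun := Fin.snoc (α := fun _ => Fin (N + 1)) (fun i => (s i).castSucc) (Fin.last N)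
  invFun := Fin.snoc (α := fun _ => Fin (N + 1)) (fun i => (s.symm i).castSucc) (Fin.last N)
  left_inv i := by
    refine Fin.lastCases ?_ (fun j => ?_) i <;> simp
  right_inv i := by
    refine Fin.lastCases ?_ (fun j => ?_) i <;> simp

omit [TopologicalSpace Y] in
theorem snoc_comp (s : Equiv.Perm (Fin N)) (x : Fin N → Y) (y0 : Y) :
    (Fin.snoc (α := fun _ => Y) (x ∘ s) y0 : Fin (N + 1) → Y) =
      (Fin.snoc (α := fun _ => Y) x y0 : Fin (N + 1) → Y) ∘ permSnoc s := by
  funext i
  refine Fin.lastCases ?_ (fun j => ?_) i <;> simp [permSnoc]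

/-- adding a point to a tuple -/
def snocC (y0 : Y) (N : ℕ) : C(Fin N → Y, Fin (N + 1) → Y) :=
  ⟨fun x => Fin.snoc (α := fun _ => Y) x y0, by
    refine continuous_pi fun i => ?_
    refine Fin.lastCases ?_ (fun j => ?_) i
    · simpa using continuous_const
    · simpa using continuous_apply j⟩

/-- adding a point -/
def spInc (y0 : Y) (N : ℕ) : C(SP N Y, SP (N + 1) Y) :=
  ⟨Quotient.map (sa := spSetoid N Y) (sb := spSetoid (N + 1) Y) (snocC y0 N)
    (by
      rintro x y ⟨s, rfl⟩
      exact ⟨permSnoc s, snoc_comp s x y0⟩),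
    Continuous.quotient_map' (snocC y0 N).continuous _⟩

@[simp] theorem spInc_proj (y0 : Y) (N : ℕ) (x : Fin N → Y) :
    spInc y0 N (proj N Y x) = proj (N + 1) Y (snocC y0 N x) := rfl

/-- the base point of the symmetric product -/
def spPt (y0 : Y) (N : ℕ) : SP N Y := proj N Y (fun _ => y0)

/-- adding `K` points -/
def spIncK (y0 : Y) (N : ℕ) : (K : ℕ) → C(SP N Y, SP (N + K) Y)
  | 0 => ContinuousMap.id _
  | K + 1 => (spInc y0 (N + K)).comp (spIncK y0 N K)

theorem spInc_pt (y0 : Y) (N : ℕ) : spInc y0 N (spPt y0 N) = spPt y0 (N + 1) := by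
  simp only [spPt, spInc_proj]
  congr 1
  funext i
  refine Fin.lastCases ?_ (fun j => ?_) i <;> simp [snocC]

theorem spIncK_pt (y0 : Y) (N K : ℕ) : spIncK y0 N K (spPt y0 N) = spPt y0 (N + K) := by
  induction K with
  | zero => rfl
  | succ K ih =>
    change spInc y0 (N + K) (spIncK y0 N K (spPt y0 N)) = _
    rw [ih]
    exact spInc_pt y0 (N + K)

/-- The transfer property of the `N`-th symmetric product: the projection `Y^N → SP^N Y` is
surjective on rational homology, and a class in its kernel has zero average. -/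
def TRN (Y : Type) [TopologicalSpace Y] (N : ℕ) : Prop := ∀ q : ℕ,
  (∀ z : HH ℚ q (SP N Y), ∃ x : HH ℚ q (Fin N → Y), HH.map ℚ q (proj N Y) x = z) ∧
  (∀ x : HH ℚ q (Fin N → Y), HH.map ℚ q (proj N Y) x = 0 →
    ∑ s : Equiv.Perm (Fin N), HH.map ℚ q (permC s Y) x = 0)

/-! ### Maps of subsets -/

/-- the restriction of a map to subsets -/
def rst {X X' : Type} [TopologicalSpace X] [TopologicalSpace X'] (f : C(X, X')) {S : Set X}
    {S' : Set X'} (h : MapsTo f S S') : C(S, S') :=
  ⟨h.restrict f S S', (f.continuous.comp continuous_subtype_val).subtype_mk _⟩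

/-- the inclusion of a subset into a larger one -/
def inc {X : Type} [TopologicalSpace X] {S T : Set X} (h : S ⊆ T) : C(S, T) :=
  ⟨Set.inclusion h, continuous_inclusion h⟩

@[simp] theorem rst_coe {X X' : Type} [TopologicalSpace X] [TopologicalSpace X'] (f : C(X, X'))
    {S : Set X} {S' : Set X'} (h : MapsTo f S S') (x : S) : (rst f h x : X') = f x := rfl

@[simp] theorem inc_coe {X : Type} [TopologicalSpace X] {S T : Set X} (h : S ⊆ T) (x : S) :
    (inc h x : X) = x := rfl

/-! ### Groups acting, and the transfer property of an open set of the quotient -/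

/-- a finite group acting on `V` and a map `p : V → Q` which is invariant -/
structure GA (V Q : Type) [TopologicalSpace V] [TopologicalSpace Q] where
  /-- the group -/
  G : Type
  [grp : Group G]
  [fin : Fintype G]
  /-- the action -/
  act : G → C(V, V)
  act_one : act 1 = ContinuousMap.id V
  act_mul : ∀ g h, act (g * h) = (act g).comp (act h)
  /-- the quotient map -/
  p : C(V, Q)
  p_act : ∀ g v, p (act g v) = p v

attribute [instance] GA.grp GA.fin

namespace GA

variable {V Q : Type} [TopologicalSpace V] [TopologicalSpace Q] (a : GA V Q)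

/-- the restriction of `p` over `O` -/
def pr (O : Set Q) : C(a.p ⁻¹' O, O) := rst a.p (fun _ h => h)

/-- the action on the preimage of `O` -/
def ac (g : a.G) (O : Set Q) : C(a.p ⁻¹' O, a.p ⁻¹' O) :=
  rst (a.act g) (fun v h => by
    change a.p (a.act g v) ∈ O
    rw [a.p_act]
    exact h)

/-- the transfer property over `O` -/
def TR (O : Set Q) : Prop := ∀ q : ℕ,
  (∀ z : HH ℚ q O, ∃ x : HH ℚ q (a.p ⁻¹' O), HH.map ℚ q (a.pr O) x = z) ∧
  (∀ x : HH ℚ q (a.p ⁻¹' O), HH.map ℚ q (a.pr O) x = 0 →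
    ∑ g : a.G, HH.map ℚ q (a.ac g O) x = 0)

end GA

/-- a linear isometric action with open quotient map -/
structure GA.Lin {V Q : Type} [NormedAddCommGroup V] [NormedSpace ℝ V] [TopologicalSpace Q]
    (a : GA V Q) : Prop where
  add : ∀ g v w, a.act g (v + w) = a.act g v + a.act g w
  smul : ∀ g (r : ℝ) v, a.act g (r • v) = r • a.act g v
  norm : ∀ g v, ‖a.act g v‖ = ‖v‖
  surj : Function.Surjective a.p
  isOpenMap : IsOpenMap a.p
  fib : ∀ v w, a.p v = a.p w → ∃ g, w = a.act g v

/-- `O` is open and its preimage is a disjoint union of finitely many open convex sets -/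
def Basic {V Q : Type} [NormedAddCommGroup V] [NormedSpace ℝ V] [TopologicalSpace Q]
    (a : GA V Q) (O : Set Q) : Prop :=
  IsOpen O ∧ ∃ K : Set (Set V), K.Finite ∧ (∀ k ∈ K, IsOpen k ∧ Convex ℝ k ∧ k.Nonempty) ∧
    K.PairwiseDisjoint id ∧ ⋃₀ K = a.p ⁻¹' O

/-- the class of a point -/
def ptc {Y : Type} [TopologicalSpace Y] (y : Y) : HH ℚ 0 Y :=
  HH.mk ℚ 0 Y ⟨Finsupp.single (ContinuousMap.const _ y) 1, mem_ZZ_zero ℚ _⟩

/-! ### Models -/

/-- the three open sectors of the plane whose union is `{t | t ^ 3 ∉ (-∞, 0]}` -/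
def Om : Fin 3 → Set ℂ
  | 0 => {t | t.im < √3 * t.re ∧ -t.im < √3 * t.re}
  | 1 => {t | 0 < t.im ∧ √3 * t.re < t.im}
  | 2 => {t | 0 < -t.im ∧ √3 * t.re < -t.im}

/-- the punctured space `ℝ^{n+1} ∖ 0`, homotopy equivalent to an `n`-sphere -/
abbrev AA (n : ℕ) : Type := {p : (Fin n → ℝ) × ℝ // p ≠ 0}

/-! ### Pointwise addition -/

/-- the multiset of the points different from `y0`, as a function with values in `ℤ` -/
def jj (y0 : Y) (N : ℕ) : SP N Y → (Y →₀ ℤ) :=
  Quotient.lift (s := spSetoid N Y)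
    (fun x => (∑ i, Finsupp.single (x i) (1 : ℤ)).erase y0)
    (by
      rintro x y ⟨s, rfl⟩
      simp only [Function.comp]
      rw [Equiv.sum_comp s (fun i => Finsupp.single (x i) (1 : ℤ))])

/-- `u` is given by a continuous map to the `N`-th symmetric product -/
def IsC (y0 : Y) (N : ℕ) {T : Type} [TopologicalSpace T] (u : T → (Y →₀ ℤ)) : Prop :=
  ∃ v : C(T, SP N Y), ∀ t, u t = jj y0 N (v t)

/-- the class of a loop in the homotopy group -/
def hcl {X : Type} [TopologicalSpace X] {x : X} {k : ℕ} (p : GenLoop (Fin k) X x) :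
    HomotopyGroup.Pi k X x := Quotient.mk _ p

/-- the degeneracy map of simplices -/
def sg {n : ℕ} (i : Fin n) : C(Dl (n + 1), Dl n) :=
  ⟨stdSimplex.map (Fin.predAbove i), stdSimplex.continuous_map _⟩

end

end Pool.Agent.H93.SPB
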