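import Pool.Agent.H93.SP.Bridge
import Pool.Agent.H93.SP.Asm
import Pool.Agent.H93.SP.AsmRE
import Pool.Agent.H93.SP.Hur1
import Pool.Agent.H93.SP.SPT
import Pool.Agent.H93.FB.Final
import Pool.Agent.H48.SP.AF
import Pool.Agent.H56.SP.AV
import Pool.Agent.H48.SP.AX
import Pool.Agent.H90.SP.BC
import Pool.Agent.H90.SP.Cube
import Pool.Agent.H81.SP.D2
import Pool.Agent.H90.SP.D3
import Pool.Agent.H90.SP.EH
import Pool.Agent.H81.SP.FIN
import Pool.Agent.H29.SP.HUR3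
import Pool.Agent.H33.SP.INJ
import Pool.Agent.H90.SP.JC
import Pool.Agent.H67.SP.KP
import Pool.Agent.H29.SP.MN
import Pool.Agent.H48.SP.MVP
import Pool.Agent.H33.SP.OM
import Pool.Agent.H81.SP.QH
import Pool.Agent.H81.SP.SC
import Pool.Agent.H29.SP.SPAN
import Pool.Agent.H33.SP.SPH
import Pool.Agent.H81.SP.SUR
import Pool.Agent.H81.SP.SUR3
import Pool.Agent.H67.SP.SW
import Pool.Agent.H29.SP.TRB1
import Pool.Agent.H39.SP.TRB
import Pool.Agent.H48.SP.TRH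
import Pool.Agent.H39.SP.TRMV
import Pool.Agent.H27.SPB.TRSP
import Pool.Agent.H39.SP.TRU
import Pool.Agent.H52.LB.Sm
import Pool.Agent.H70.LB.MV
import Pool.Agent.H70.LB.MVS
import Pool.Agent.H70.LB.CS
import Pool.Agent.H19.LB.SCO
import Pool.Agent.H19.LB.SCS
import Pool.Agent.H27.LB.TRI
import Pool.Agent.H27.LB.VK

/-!
# Real part of the target of MP_2059f1_ag: `T_RE` without hypotheses
-/

open Pool.Agent.H64.LB (OO)

namespace Pool.Agent.H93.SPB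

theorem mvs' : Pool.Agent.H64.LB.T_MVS :=
  Pool.Agent.H70.LB.mvs (Pool.Agent.H70.LB.mv Pool.Agent.H52.LB.sm)

theorem hi' : T_HI := hi Pool.Agent.H93.FB.hm'
theorem mv' : T_MV := mv mvs'
theorem cs' : T_CS := cs Pool.Agent.H70.LB.cs
theorem h0' : T_H0 := h0 Pool.Agent.H93.FB.di'
theorem lc0' : T_LC0 := lc0 Pool.Agent.H93.FB.di' Pool.Agent.H93.FB.hm'
theorem mvp' : T_MVP := Pool.Agent.H48.SP.MVP.mvp mv'
theorem av' : T_AV := Pool.Agent.H56.SP.AV.av mvp' hi' h0' lc0'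
theorem af' : T_AF := Pool.Agent.H48.SP.AF.af mvp' hi'
theorem ax' : T_AX := Pool.Agent.H48.SP.AX.ax mvp' hi' av'
theorem kp' : T_KP := Pool.Agent.H67.SPM.KP.kp mvp' hi' Pool.Agent.H33.SP.OM.om
theorem sw' : T_SW := Pool.Agent.H67.SPM.SW.sw mvp' hi'
theorem trl' : T_TRL :=
  trl (Pool.Agent.H39.SP.tru (Pool.Agent.H39.SP.trmv mv') cs')
    (Pool.Agent.H29.SP.TRB1.trb1 lc0' h0') Pool.Agent.H39.SP.trb2 Pool.Agent.H39.SP.trb3
theorem tro' : T_TRO := Pool.Agent.H27.SPB.tro trl'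
theorem trh' : T_TRH := Pool.Agent.H48.SP.TRH.trh Pool.Agent.H33.SP.SPH.sph hi'
theorem fin' : T_FIN := Pool.Agent.H81.SP.fin tro' kp' Pool.Agent.H29.SP.SPAN.span af'
theorem sco' : Pool.Agent.H64.LB.T_SCO :=
  Pool.Agent.H19.LB.sco Pool.Agent.H27.LB.tri' Pool.Agent.H27.LB.vk
    (Pool.Agent.H19.LB.scs Pool.Agent.H27.LB.vk)
theorem pc' : T_PC := by
  have h : SimplyConnectedSpace (OO 3) := sco'
  exact inferInstanceAs (PathConnectedSpace (OO 3))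
theorem sur' : T_SUR :=
  Pool.Agent.H81.SP.sur tro' kp' Pool.Agent.H29.SP.SPAN.span sw' Pool.Agent.H33.SP.SPH.add
    pc' hi'
theorem sur3' : T_SUR3 :=
  Pool.Agent.H81.SP.sur3 tro' kp' Pool.Agent.H29.SP.SPAN.span ax' Pool.Agent.H33.SP.SPH.add
    pc' hi'
theorem tp' : T_TP :=
  tp hi' Pool.Agent.H33.SP.SPH.sph tro' trh' Pool.Agent.H33.SP.INJ.inj sur' sur3' fin'
theorem hur1' : T_HUR1 :=
  hur1 Pool.Agent.H90.SP.jc Pool.Agent.H29.SP.MN.mn Pool.Agent.H81.SP.d2 Pool.Agent.H90.SP.d3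
    Pool.Agent.H90.SP.eh
theorem re' : T_RE :=
  re tp' hur1' Pool.Agent.H29.SP.HUR3.hur3 Pool.Agent.H48.SP.PF.pf Pool.Agent.H81.SP.qh
    Pool.Agent.H81.SP.sc Pool.Agent.H90.SP.bc Pool.Agent.H93.FB.rw'

end Pool.Agent.H93.SPB
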